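import Pool.Agent.W663.FI.Final

set_option autoImplicit false

open Pool.Agent.W663.FI Pool.Agent.Helper38.FE
open scoped TensorProduct

namespace Pool.Agent.Results.MP_5b305c_an.NeverUniform

/-- Let `x_1, …, x_m` (`m ≥ 1`) be self-adjoint elements with finite free Fisher information in a
tracial von Neumann algebra `(M, τ)`.  Then the free difference quotients `∂_i` are well defined
and closable, a closed gradient exists, and for every closed gradient `S` the heat semigroup
`e^{-tΔ}` of `Δ = S* S = ∑ ∂̄_i* ∂̄_i` does not converge to the identity uniformly on the unit ball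
of `N = {x_1, …, x_m}''`; in fact for every `i` and every `t ∈ (0, 1]` there is `y ∈ N` with
`‖y‖ ≤ 1` and `‖e^{-tΔ} y - y‖₂ ≥ 1 / (112 ‖J(x_i)‖₂ (2 ‖x_i‖ + 1))`. -/
theorem result (H : Type) [NormedAddCommGroup H] [InnerProductSpace ℂ H] [CompleteSpace H]
    (M : VonNeumannAlgebra H) (Ω : H) (hM : TracialSpace M Ω) (m : ℕ) (hm : 0 < m)
    (x : Fin m → (H →L[ℂ] H)) (hx : ∀ i, x i ∈ M ∧ IsSelfAdjoint (x i))
    (ξ : Fin m → H) (hξ : IsConj Ω x ξ) :
    HeatNotUniform (F := UniformSpace.Completion (L2 Ω x ⊗[ℂ] L2 Ω x)) (vec Ω x) (freeDQ Ω x)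
      (opBall Ω x) (fun i => 1 / (112 * ‖ξ i‖ * (2 * ‖x i‖ + 1))) :=
  heat_not_uniform hM hm hx hξ

end Pool.Agent.Results.MP_5b305c_an.NeverUniform
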